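import Mathlib
import Pool.Agent.U121.MDS.Growth

/-!
# The number of linear MDS codes

Let `F` be a field with `q` elements. There are at least `q ^ (k (n - k))` linear codes of length `n`
and dimension `k`. We show that, if `q` is large, `n - k` is at least `ε q` and `k` is at least
`(log q)²`, at most `(log q) ^ ((1 + ε) k (n - k))` of them are MDS; this follows from an explicit
bound for all `q`, `k` and `n`. In particular this bounds the number of the
counterexamples to the MDS conjecture of length `n = q + 2` (or larger) and of any dimension between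
`(log q)²` and `(1 - ε) q`.

The proof: a code with generator matrix `(I A)` is MDS if and only if the columns of `I` and `A` are an
arc of `F ^ k`. One adds the columns of `A` one after the other. Divide the coordinates `2, …, k` in
blocks of `j ≈ log q` coordinates. For every block and every `j` of the `s` columns which are already
there, there is a linear form which depends only on the first coordinate and on the coordinates of the
block, and vanishes at these `j` columns. The forms of one block are pairwise independent, and all of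
them are different from zero at the next column. By the inequality of Chebyshev the proportion of the
vectors of `F ^ (j + 1)` with this property is at most `q / C(s, j)`. So the coordinates of the
next column in one block take, for a given first coordinate, at most `q ^ (j + 1) / C(s, j)` values.
The product over the blocks and over the columns gives the theorem.
-/

set_option autoImplicit false

namespace Pool.Agent.Results.MP_b6c9b4_co.NumberOfMDSCodes

/-- The number of `k`-dimensional linear codes `C ⊆ F^n`. -/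
noncomputable def codes (F : Type) [Field F] [Fintype F] (n k : ℕ) : ℕ :=
  Nat.card {C : Submodule F (Fin n → F) // Module.finrank F C = k}

/-- The number of `k`-dimensional linear MDS codes `C ⊆ F^n`: all nonzero words have weight at least
`n - k + 1`. -/
noncomputable def mdsCodes (F : Type) [Field F] [Fintype F] [DecidableEq F] (n k : ℕ) : ℕ :=
  Nat.card {C : Submodule F (Fin n → F) // Module.finrank F C = k ∧
    ∀ w ∈ C, w ≠ 0 → n + 1 ≤ hammingNorm w + k}

open Pool.Agent.U121 in
lemma explicit (F : Type) [Field F] [Fintype F] [DecidableEq F] (q : ℕ) (hq : q = Fintype.card F)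
    (j b r n k : ℕ) (hj : 1 ≤ j) (hk : k = 1 + (b * j + r)) (hkn : k < n) :
    (mdsCodes F n k : ℝ) ≤ ((q : ℝ) ^ (1 + r + b) *
      (2 * Real.exp 1 * (q : ℝ) * j / ((n : ℝ) - k)) ^ (j * b)) ^ (n - k) := by
  obtain ⟨μ, rfl⟩ : ∃ μ, n = k + μ := ⟨n - k, by omega⟩
  rw [Nat.add_sub_cancel_left]
  have hμ : 1 ≤ μ := by omega
  have hcast : ((k + μ : ℕ) : ℝ) - k = μ := by push_cast; ring
  rw [hcast]
  have hcard : Fintype.card (Option (Fin b × Fin j ⊕ Fin r)) = k := by
    rw [Fintype.card_option, Fintype.card_sum, Fintype.card_prod, Fintype.card_fin,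
      Fintype.card_fin, Fintype.card_fin, hk]
    omega
  have e : Fin k ≃ Option (Fin b × Fin j ⊕ Fin r) := (Fintype.equivFinOfCardEq hcard).symm
  have h1 := MDS.NN_le (F := F) (β := Fin b) (γ := Fin j) (ρ := Fin r) (j := j) (b := b) (r := r)
    hj (Fintype.card_fin j) (Fintype.card_fin b) (Fintype.card_fin r) hμ
  rw [← hq] at h1
  refine le_trans ?_ h1
  have h2 : mdsCodes F (k + μ) k ≤ MDS.NN F (Option (Fin b × Fin j ⊕ Fin r)) μ := MDS.mds_le e
  exact_mod_cast h2

open Pool.Agent.U121 in
/-- **Few linear codes are MDS.** -/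
theorem result :
    (∀ (F : Type) [Field F] [Fintype F] [DecidableEq F] (q : ℕ), q = Fintype.card F →
      ∀ j b r n k : ℕ, 1 ≤ j → k = 1 + (b * j + r) → k < n →
        (mdsCodes F n k : ℝ) ≤ ((q : ℝ) ^ (1 + r + b) *
          (2 * Real.exp 1 * (q : ℝ) * j / ((n : ℝ) - k)) ^ (j * b)) ^ (n - k)) ∧
    (∀ ε : ℝ, 0 < ε → ∃ q₀ : ℕ, ∀ (F : Type) [Field F] [Fintype F] [DecidableEq F]
      (q : ℕ), q = Fintype.card F → q₀ ≤ q → ∀ n k : ℕ, k ≤ n → Real.log q ^ 2 ≤ k →
      ε * q ≤ (n : ℝ) - k →
        q ^ (k * (n - k)) ≤ codes F n k ∧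
        (mdsCodes F n k : ℝ) ≤ Real.log q ^ ((1 + ε) * ((k * (n - k) : ℕ) : ℝ))) := by
  refine ⟨fun F _ _ _ q hq j b r n k hj hk hkn => explicit F q hq j b r n k hj hk hkn, ?_⟩
  intro ε hε
  obtain ⟨q₀, hq₀⟩ := MDS.growth2 hε
  refine ⟨max q₀ 2, fun F _ _ _ q hq hq0 n k hkn hk hn => ⟨?_, ?_⟩⟩
  · rw [hq]
    exact MDS.codes_ge hkn
  · have hq2 : 2 ≤ q := le_trans (le_max_right _ _) hq0
    have hqR : (2 : ℝ) ≤ q := by exact_mod_cast hq2
    have hlog : 0 < Real.log q := Real.log_pos (by linarith)
    have hlt : k < n := by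
      have h1 : (0 : ℝ) < (n : ℝ) - k := lt_of_lt_of_le (by positivity) hn
      have h2 : (k : ℝ) < n := by linarith
      exact_mod_cast h2
    have hk1 : 1 ≤ k := by
      have h1 : (0 : ℝ) < k := lt_of_lt_of_le (by positivity) hk
      exact_mod_cast h1
    obtain ⟨j, hj⟩ : ∃ j : ℕ, j = ⌈Real.log q⌉₊ := ⟨_, rfl⟩
    have hj0 : 0 < j := by
      rw [hj]
      exact Nat.ceil_pos.2 hlog
    obtain ⟨b, hb⟩ : ∃ b : ℕ, b = (k - 1) / j := ⟨_, rfl⟩
    obtain ⟨r, hr⟩ : ∃ r : ℕ, r = (k - 1) % j := ⟨_, rfl⟩
    have hrj : r < j := by rw [hr]; exact Nat.mod_lt _ hj0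
    have hkk : k = 1 + (b * j + r) := by
      have := Nat.div_add_mod (k - 1) j
      rw [← hb, ← hr, mul_comm] at this
      omega
    have hcast : ((n - k : ℕ) : ℝ) = (n : ℝ) - k := Nat.cast_sub hkn
    obtain ⟨g1, g2⟩ := hq₀ q (le_trans (le_max_left _ _) hq0) k (n - k) j b r hj hrj hkk hk
      (by rw [hcast]; exact hn) (by omega)
    refine le_trans ?_ g2
    rw [hcast]
    exact explicit F q hq j b r n k hj0 hkk hlt

end Pool.Agent.Results.MP_b6c9b4_co.NumberOfMDSCodes
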